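import Mathlib
import Pool.Agent.Q249.SF.Stm

/-!
# Job SF-SLO: comparison of the two coefficients far out (for `MP_f612df_an`)
-/

set_option autoImplicit false

open MeasureTheory Real Set Filter Topology
open scoped FourierTransform SchwartzMap

namespace Q257.SF.SLO

open Q249.SF

theorem k0_pos : 0 < k0 := by
  have h : k0 = √(π / (2 * π)) := by
    rw [k0, ← integral_gaussian (2 * π)]
    refine integral_congr_ae (Eventually.of_forall fun u => ?_)
    simp only [Q249.SF.ker]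
    congr 1
    ring
  rw [h]
  apply Real.sqrt_pos.mpr
  have := Real.pi_pos
  positivity

/-- comparison of the values of a slope weight at two points -/
theorem comp {K : ℕ} {w : ℝ → ℝ} (hw : Slope K w) {t y : ℝ} (ht : 0 < |t|)
    (h : |y| ≤ |t| + 1) : w y ≤ (1 + 1 / |t|) ^ K * w t := by
  obtain ⟨-, h0, hm, hs⟩ := hw
  have h1 : (1 : ℝ) ≤ 1 + 1 / |t| := by
    have : 0 ≤ 1 / |t| := by positivity
    linarith
  refine le_trans (hm y ((1 + 1 / |t|) * t) ?_) (hs _ _ h1)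
  rw [abs_mul, abs_of_nonneg (by linarith : (0:ℝ) ≤ 1 + 1 / |t|)]
  have : (1 + 1 / |t|) * |t| = |t| + 1 := by
    field_simp
  rw [this]
  exact h

theorem t_SLO : S_WAV → S_WUP → S_SLO := by
  intro hWAV hWUP K γ δ hγ hδ
  obtain ⟨K', hK'⟩ := hWUP γ hγ K
  obtain ⟨C1, hC1, hW1⟩ := hWAV K
  obtain ⟨C2, hC2, hW2⟩ := hWAV K'
  have hk := k0_pos
  -- first eventual inequality
  have e1 : ∀ᶠ s : ℝ in atTop, (1 + δ) * (k0 + C2 * (s + -1)⁻¹) * (1 + s⁻¹) ^ K' +
      (1 + 1 / δ) * C1 * (1 + s⁻¹) ^ K * s ^ (-(2 * γ)) < (1 + δ) ^ 2 * k0 := by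
    have hi : Tendsto (fun s : ℝ => s⁻¹) atTop (𝓝 0) := tendsto_inv_atTop_zero
    have hi1 : Tendsto (fun s : ℝ => (s + -1)⁻¹) atTop (𝓝 0) :=
      tendsto_inv_atTop_zero.comp (tendsto_atTop_add_const_right _ _ tendsto_id)
    have hr : Tendsto (fun s : ℝ => s ^ (-(2 * γ))) atTop (𝓝 0) :=
      tendsto_rpow_neg_atTop (by positivity)
    have hT : Tendsto (fun s : ℝ => (1 + δ) * (k0 + C2 * (s + -1)⁻¹) * (1 + s⁻¹) ^ K' +
        (1 + 1 / δ) * C1 * (1 + s⁻¹) ^ K * s ^ (-(2 * γ))) atTop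
        (𝓝 ((1 + δ) * (k0 + C2 * 0) * (1 + 0) ^ K' + (1 + 1 / δ) * C1 * (1 + 0) ^ K * 0)) := by
      refine Tendsto.add ?_ ?_
      · exact ((tendsto_const_nhds.add (hi1.const_mul C2)).const_mul (1 + δ)).mul
          ((tendsto_const_nhds.add hi).pow K')
      · exact (((tendsto_const_nhds.add hi).pow K).const_mul _).mul hr
    refine hT.eventually_lt_const ?_
    simp only [mul_zero, add_zero, one_pow, mul_one]
    nlinarith [mul_pos hδ hk, mul_pos (mul_pos hδ hδ) hk]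
  have e2 : ∀ᶠ s : ℝ in atTop, k0 * (1 + s⁻¹) ^ K - (1 + δ) * (k0 - C1 * s⁻¹) < 0 := by
    have hi : Tendsto (fun s : ℝ => s⁻¹) atTop (𝓝 0) := tendsto_inv_atTop_zero
    have hT : Tendsto (fun s : ℝ => k0 * (1 + s⁻¹) ^ K - (1 + δ) * (k0 - C1 * s⁻¹)) atTop
        (𝓝 (k0 * (1 + 0) ^ K - (1 + δ) * (k0 - C1 * 0))) := by
      refine Tendsto.sub ?_ ?_
      · exact ((tendsto_const_nhds.add hi).pow K).const_mul _
      · exact (tendsto_const_nhds.sub (hi.const_mul C1)).const_mul _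
    refine hT.eventually_lt_const ?_
    simp only [mul_zero, add_zero, one_pow, mul_one, sub_zero]
    nlinarith [mul_pos hδ hk]
  obtain ⟨M1, hM1⟩ := eventually_atTop.1 e1
  obtain ⟨M2, hM2⟩ := eventually_atTop.1 e2
  refine ⟨max (max M1 (M2 + 1)) 2, le_trans (by norm_num) (le_max_right _ _), ?_⟩
  intro w hw t y ht hy
  have hup := hK' w hw
  have hM1t : M1 ≤ |t| := le_trans (le_trans (le_max_left _ _) (le_max_left _ _)) ht
  have hM2t : M2 + 1 ≤ |t| := le_trans (le_trans (le_max_right _ _) (le_max_left _ _)) ht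
  have h2t : 2 ≤ |t| := le_trans (le_max_right _ _) ht
  have ht0 : 0 < |t| := by linarith
  have hyt : |y| ≤ |t| + 1 := by
    have := abs_sub_abs_le_abs_sub y t
    linarith
  have hty : |t| ≤ |y| + 1 := by
    have := abs_sub_abs_le_abs_sub t y
    rw [abs_sub_comm] at hy
    linarith
  have hy1 : 1 ≤ |y| := by linarith
  have hy0 : 0 < |y| := by linarith
  have hM2y : M2 ≤ |y| := by linarith
  obtain ⟨hA1, hA2, hA3⟩ := hW1 w hw y hy1
  obtain ⟨hB1, -, -⟩ := hW2 _ hup y hy1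
  have hc1 := comp hw ht0 hyt
  have hc2 := comp hup ht0 hyt
  have hc3 := comp hw hy0 hty
  have hw0 := hw.2.1
  have hwt := hw0 t
  have hwy := hw0 y
  have hupt : 0 ≤ up γ w t := hup.2.1 t
  have hupy : 0 ≤ up γ w y := hup.2.1 y
  constructor
  · have hE := (hM1 |t| hM1t).le
    -- average of `up`
    have s1 : av (up γ w) y ≤ (k0 + C2 * (|t| + -1)⁻¹) * ((1 + |t|⁻¹) ^ K' * up γ w t) := by
      refine hB1.trans ?_
      have hq : C2 / |y| ≤ C2 * (|t| + -1)⁻¹ := by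
        rw [div_eq_mul_inv]
        refine mul_le_mul_of_nonneg_left ?_ hC2
        exact inv_anti₀ (by linarith) (by linarith)
      rw [one_div] at hc2
      have hp : 0 ≤ C2 / |y| := by positivity
      refine mul_le_mul (by linarith) hc2 hupy (by linarith)
    have s2 : av2 w y ≤ C1 * ((1 + |t|⁻¹) ^ K * w t) := by
      rw [one_div] at hc1
      exact hA3.trans (mul_le_mul_of_nonneg_left hc1 hC1)
    have s3 : w t = |t| ^ (-(2 * γ)) * up γ w t := by
      rw [up, mul_comm (w t), ← mul_assoc, ← Real.rpow_add ht0]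
      simp
    have hδ1 : 0 ≤ 1 + 1 / δ := by positivity
    calc PP δ γ w y ≤ (1 + δ) * ((k0 + C2 * (|t| + -1)⁻¹) * ((1 + |t|⁻¹) ^ K' * up γ w t)) +
          (1 + 1 / δ) * (C1 * ((1 + |t|⁻¹) ^ K * w t)) := by
          rw [PP]
          have := mul_le_mul_of_nonneg_left s1 (by linarith : (0:ℝ) ≤ 1 + δ)
          have := mul_le_mul_of_nonneg_left s2 hδ1
          linarith
      _ = ((1 + δ) * (k0 + C2 * (|t| + -1)⁻¹) * (1 + |t|⁻¹) ^ K' +
          (1 + 1 / δ) * C1 * (1 + |t|⁻¹) ^ K * |t| ^ (-(2 * γ))) * up γ w t := by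
          conv_lhs => rw [s3]
          ring
      _ ≤ (1 + δ) ^ 2 * k0 * up γ w t := mul_le_mul_of_nonneg_right hE hupt
      _ = (1 + δ) ^ 2 * k0 * (w t * |t| ^ (2 * γ)) := by rw [up]
  · have hE := (hM2 |y| hM2y).le
    have hE' : k0 * (1 + |y|⁻¹) ^ K ≤ (1 + δ) * (k0 - C1 * |y|⁻¹) := by linarith
    rw [one_div] at hc3
    calc k0 * w t ≤ k0 * ((1 + |y|⁻¹) ^ K * w y) := mul_le_mul_of_nonneg_left hc3 hk.le
      _ = (k0 * (1 + |y|⁻¹) ^ K) * w y := by ring
      _ ≤ ((1 + δ) * (k0 - C1 * |y|⁻¹)) * w y := mul_le_mul_of_nonneg_right hE' hwy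
      _ = (1 + δ) * ((k0 - C1 / |y|) * w y) := by rw [div_eq_mul_inv]; ring
      _ ≤ (1 + δ) * av w y := mul_le_mul_of_nonneg_left hA2 (by linarith)

end Q257.SF.SLO
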