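import Mathlib
import Pool.Agent.Q249.SF.Stm
import Pool.Agent.Q257.SF.SLO

/-!
# Job SF-INT: one interval between two nodes (for `MP_f612df_an`)
-/

set_option autoImplicit false

open MeasureTheory Real Set Filter Topology
open scoped FourierTransform SchwartzMap

namespace Q257.SF.INT

open Q249.SF

theorem int_gauss (K : ℕ) : Integrable fun u : ℝ => (1 + |u|) ^ K * Q249.SF.ker u := by
  have h1 : Integrable fun u : ℝ => Real.exp (-(2 * π) * u ^ 2) :=
    integrable_exp_neg_mul_sq (by positivity)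
  have h2 : Integrable fun u : ℝ => u ^ (K : ℝ) * Real.exp (-(2 * π) * u ^ 2) :=
    integrable_rpow_mul_exp_neg_mul_sq (by positivity) (by
      have : (0 : ℝ) ≤ K := Nat.cast_nonneg K
      linarith)
  have h3 := (h1.add h2.norm).const_mul (2 ^ (K - 1) : ℝ)
  refine h3.mono' ?_ (Eventually.of_forall fun u => ?_)
  · refine Continuous.aestronglyMeasurable ?_
    unfold Q249.SF.ker
    fun_prop
  · have e : Q249.SF.ker u = Real.exp (-(2 * π) * u ^ 2) := by
      unfold Q249.SF.ker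
      congr 1
      ring
    rw [e]
    have hE : 0 < Real.exp (-(2 * π) * u ^ 2) := Real.exp_pos _
    have hp : (1 + |u|) ^ K ≤ 2 ^ (K - 1) * (1 ^ K + |u| ^ K) :=
      add_pow_le (by norm_num) (abs_nonneg u) K
    rw [Real.norm_of_nonneg (by positivity)]
    have e2 : ‖u ^ (K : ℝ) * Real.exp (-(2 * π) * u ^ 2)‖ =
        |u| ^ K * Real.exp (-(2 * π) * u ^ 2) := by
      rw [norm_mul, Real.norm_of_nonneg hE.le, Real.rpow_natCast, norm_pow, Real.norm_eq_abs]
    simp only [Pi.add_apply]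
    rw [e2]
    calc (1 + |u|) ^ K * Real.exp (-(2 * π) * u ^ 2)
        ≤ (2 ^ (K - 1) * (1 ^ K + |u| ^ K)) * Real.exp (-(2 * π) * u ^ 2) :=
          mul_le_mul_of_nonneg_right hp hE.le
      _ = _ := by rw [one_pow]; ring

/-- growth of slope weights -/
theorem gr {K : ℕ} {w : ℝ → ℝ} (hw : Slope K w) (y u : ℝ) :
    w (y + u) ≤ (1 + |y|) ^ K * (1 + |u|) ^ K * w 1 := by
  obtain ⟨-, h0, hm, hs⟩ := hw
  have h1 : (1 : ℝ) ≤ (1 + |y|) * (1 + |u|) := by nlinarith [abs_nonneg y, abs_nonneg u]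
  have h2 : w (y + u) ≤ w (((1 + |y|) * (1 + |u|)) * 1) := by
    apply hm
    rw [mul_one, abs_of_nonneg (by linarith : (0:ℝ) ≤ (1 + |y|) * (1 + |u|))]
    have := abs_add_le y u
    nlinarith [abs_nonneg y, abs_nonneg u]
  refine h2.trans ?_
  have := hs _ 1 h1
  rwa [mul_pow] at this

theorem ker_nonneg (u : ℝ) : 0 ≤ Q249.SF.ker u := (Real.exp_pos _).le

theorem ker_cont : Continuous Q249.SF.ker := by
  unfold Q249.SF.ker
  fun_prop

theorem av_cont {K : ℕ} {w : ℝ → ℝ} (hw : Slope K w) : Continuous (av w) := by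
  rw [continuous_iff_continuousAt]
  intro y0
  have hwc := hw.1
  have hkc := ker_cont
  refine continuousAt_of_dominated (F := fun y u => w (y + u) * Q249.SF.ker u)
    (bound := fun u => (2 + |y0|) ^ K * w 1 * ((1 + |u|) ^ K * Q249.SF.ker u)) ?_ ?_ ?_ ?_
  · exact Eventually.of_forall fun y => (by fun_prop : Continuous _).aestronglyMeasurable
  · have : ∀ᶠ y in 𝓝 y0, |y| < |y0| + 1 :=
      (continuous_abs.tendsto y0).eventually_lt_const (by linarith)
    filter_upwards [this] with y hy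
    refine Eventually.of_forall fun u => ?_
    have hk := ker_nonneg u
    have hw1 := hw.2.1 1
    rw [Real.norm_of_nonneg (mul_nonneg (hw.2.1 _) hk)]
    have h1 := gr hw y u
    have h2 : (1 + |y|) ^ K ≤ (2 + |y0|) ^ K := by
      apply pow_le_pow_left₀ (by positivity)
      linarith
    calc w (y + u) * Q249.SF.ker u ≤ ((1 + |y|) ^ K * (1 + |u|) ^ K * w 1) * Q249.SF.ker u :=
          mul_le_mul_of_nonneg_right h1 hk
      _ ≤ ((2 + |y0|) ^ K * (1 + |u|) ^ K * w 1) * Q249.SF.ker u := by gcongr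
      _ = _ := by ring
  · exact (int_gauss K).const_mul _
  · exact Eventually.of_forall fun u => (by fun_prop : Continuous _).continuousAt

theorem av_nonneg {K : ℕ} {w : ℝ → ℝ} (hw : Slope K w) (y : ℝ) : 0 ≤ av w y :=
  integral_nonneg fun u => mul_nonneg (hw.2.1 _) (ker_nonneg u)

/-- the estimate, with the reference point `t` isolated -/
theorem core (hWIR : S_WIR) {γ θ δ : ℝ} (hθ : 0 < θ) (hδ : 0 < δ)
    (hθδ : θ = 1 - 4 * δ) {K : ℕ} {w : ℝ → ℝ} (hw : Slope K w)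
    (f f' : ℝ → ℂ) (hf : ∀ x, HasDerivAt f (f' x) x) (hf' : Continuous f')
    (a b t : ℝ) (hab : a ≤ b) (hb1 : b - a ≤ 1) (ht : |t| ^ γ * (b - a) ≤ θ / 2)
    (hS : ∀ y ∈ Set.Icc a b, PP δ γ w y ≤ (1 + δ) ^ 2 * k0 * (w t * |t| ^ (2 * γ)) ∧
      k0 * w t ≤ (1 + δ) * av w y)
    (hua : up γ w t ≤ up γ w a) (hub : up γ w t ≤ up γ w b) :
    ∫ s in a..b, PP δ γ w s * ‖f s‖ ^ 2 ≤
      θ * (1 / (4 * π ^ 2)) * (∫ s in a..b, av w s * ‖f' s‖ ^ 2) +
      ((1 + δ) ^ 2 * k0 * (1 + 1 / δ)) * (up γ w a * ‖f a‖ ^ 2 + up γ w b * ‖f b‖ ^ 2) := by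
  have hk := Q257.SF.SLO.k0_pos
  have hpi := Real.pi_pos
  have hfc : Continuous f := continuous_iff_continuousAt.2 fun x => (hf x).continuousAt
  have hwt := hw.2.1 t
  have hU : 0 ≤ up γ w t := mul_nonneg hwt (Real.rpow_nonneg (abs_nonneg t) _)
  have hU' : w t * |t| ^ (2 * γ) = up γ w t := rfl
  have hba : 0 ≤ b - a := by linarith
  have hI' : 0 ≤ ∫ s in a..b, ‖f' s‖ ^ 2 :=
    intervalIntegral.integral_nonneg hab fun s _ => by positivity
  have hJ0 : 0 ≤ ∫ s in a..b, av w s * ‖f' s‖ ^ 2 :=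
    intervalIntegral.integral_nonneg hab fun s _ => mul_nonneg (av_nonneg hw s) (by positivity)
  have hA : 0 ≤ up γ w a := mul_nonneg (hw.2.1 a) (Real.rpow_nonneg (abs_nonneg a) _)
  have hB : 0 ≤ up γ w b := mul_nonneg (hw.2.1 b) (Real.rpow_nonneg (abs_nonneg b) _)
  have hC : 0 ≤ (1 + δ) ^ 2 * k0 * (1 + 1 / δ) := by positivity
  -- the left-hand side
  by_cases hint : IntervalIntegrable (fun s => PP δ γ w s * ‖f s‖ ^ 2) volume a b
  swap
  · rw [intervalIntegral.integral_undef hint]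
    have : 0 ≤ θ * (1 / (4 * π ^ 2)) := by positivity
    have := mul_nonneg this hJ0
    have := mul_nonneg hC (by positivity : 0 ≤ up γ w a * ‖f a‖ ^ 2 + up γ w b * ‖f b‖ ^ 2)
    linarith
  have hL : ∫ s in a..b, PP δ γ w s * ‖f s‖ ^ 2 ≤
      (1 + δ) ^ 2 * k0 * up γ w t * ∫ s in a..b, ‖f s‖ ^ 2 := by
    rw [← intervalIntegral.integral_const_mul]
    refine intervalIntegral.integral_mono_on hab hint ?_ fun s hs => ?_
    · exact (by fun_prop : Continuous fun s => (1 + δ) ^ 2 * k0 * up γ w t * ‖f s‖ ^ 2)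
        |>.intervalIntegrable _ _
    · have := (hS s hs).1
      rw [hU'] at this
      exact mul_le_mul_of_nonneg_right this (by positivity)
  have hJ : k0 * w t * (∫ s in a..b, ‖f' s‖ ^ 2) ≤
      (1 + δ) * ∫ s in a..b, av w s * ‖f' s‖ ^ 2 := by
    rw [← intervalIntegral.integral_const_mul, ← intervalIntegral.integral_const_mul]
    have hav := av_cont hw
    refine intervalIntegral.integral_mono_on hab ?_ ?_ fun s hs => ?_
    · exact (by fun_prop : Continuous fun s => k0 * w t * ‖f' s‖ ^ 2).intervalIntegrable _ _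
    · exact (by fun_prop : Continuous fun s => (1 + δ) * (av w s * ‖f' s‖ ^ 2))
        |>.intervalIntegrable _ _
    · have := (hS s hs).2
      calc k0 * w t * ‖f' s‖ ^ 2 ≤ ((1 + δ) * av w s) * ‖f' s‖ ^ 2 :=
            mul_le_mul_of_nonneg_right this (by positivity)
        _ = _ := by ring
  have hW := hWIR f f' hf hf' a b δ hab hδ
  set I' := ∫ s in a..b, ‖f' s‖ ^ 2
  set J := ∫ s in a..b, av w s * ‖f' s‖ ^ 2
  -- the square of the gap
  have hg : up γ w t * (b - a) ^ 2 ≤ w t * (θ ^ 2 / 4) := by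
    have e : up γ w t * (b - a) ^ 2 = w t * (|t| ^ γ * (b - a)) ^ 2 := by
      rw [up, mul_pow, ← Real.rpow_natCast (|t| ^ γ) 2, ← Real.rpow_mul (abs_nonneg t)]
      rw [show γ * ((2 : ℕ) : ℝ) = 2 * γ by push_cast; ring]
      ring
    rw [e]
    refine mul_le_mul_of_nonneg_left ?_ hwt
    have h0 : 0 ≤ |t| ^ γ * (b - a) := mul_nonneg (Real.rpow_nonneg (abs_nonneg t) _) hba
    calc (|t| ^ γ * (b - a)) ^ 2 ≤ (θ / 2) ^ 2 := pow_le_pow_left₀ h0 ht 2
      _ = θ ^ 2 / 4 := by ring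
  have hθ4 : (1 + δ) ^ 4 * θ ≤ 1 := by
    rw [hθδ]
    nlinarith [pow_pos hδ 2, pow_pos hδ 3, pow_pos hδ 4, pow_pos hδ 5]
  -- first term
  have t1 : (1 + δ) ^ 2 * k0 * up γ w t * ((1 + δ) * ((b - a) / π) ^ 2 * I') ≤
      θ * (1 / (4 * π ^ 2)) * J := by
    calc (1 + δ) ^ 2 * k0 * up γ w t * ((1 + δ) * ((b - a) / π) ^ 2 * I')
        = (1 + δ) ^ 3 * k0 * (1 / π ^ 2) * I' * (up γ w t * (b - a) ^ 2) := by
          rw [div_pow]; ring
      _ ≤ (1 + δ) ^ 3 * k0 * (1 / π ^ 2) * I' * (w t * (θ ^ 2 / 4)) :=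
          mul_le_mul_of_nonneg_left hg (by positivity)
      _ = (1 + δ) ^ 3 * (1 / (4 * π ^ 2)) * θ ^ 2 * (k0 * w t * I') := by
          field_simp
      _ ≤ (1 + δ) ^ 3 * (1 / (4 * π ^ 2)) * θ ^ 2 * ((1 + δ) * J) :=
          mul_le_mul_of_nonneg_left hJ (by positivity)
      _ = ((1 + δ) ^ 4 * θ) * (θ * (1 / (4 * π ^ 2)) * J) := by ring
      _ ≤ 1 * (θ * (1 / (4 * π ^ 2)) * J) := mul_le_mul_of_nonneg_right hθ4 (by positivity)
      _ = _ := one_mul _
  have t2 : (1 + δ) ^ 2 * k0 * up γ w t * ((1 + 1 / δ) * (b - a) * (‖f a‖ ^ 2 + ‖f b‖ ^ 2)) ≤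
      ((1 + δ) ^ 2 * k0 * (1 + 1 / δ)) * (up γ w a * ‖f a‖ ^ 2 + up γ w b * ‖f b‖ ^ 2) := by
    calc (1 + δ) ^ 2 * k0 * up γ w t * ((1 + 1 / δ) * (b - a) * (‖f a‖ ^ 2 + ‖f b‖ ^ 2))
        = ((1 + δ) ^ 2 * k0 * (1 + 1 / δ)) *
          ((b - a) * (up γ w t * ‖f a‖ ^ 2 + up γ w t * ‖f b‖ ^ 2)) := by ring
      _ ≤ ((1 + δ) ^ 2 * k0 * (1 + 1 / δ)) *
          (1 * (up γ w a * ‖f a‖ ^ 2 + up γ w b * ‖f b‖ ^ 2)) := by
          refine mul_le_mul_of_nonneg_left ?_ hC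
          refine mul_le_mul hb1 ?_ (by positivity) (by norm_num)
          exact add_le_add (mul_le_mul_of_nonneg_right hua (by positivity))
            (mul_le_mul_of_nonneg_right hub (by positivity))
      _ = _ := by rw [one_mul]
  have hUk : 0 ≤ (1 + δ) ^ 2 * k0 * up γ w t := by positivity
  have := mul_le_mul_of_nonneg_left hW hUk
  rw [mul_add] at this
  linarith

theorem t_INT : S_WIR → S_SLO → S_INT := by
  intro hWIR hSLO γ θ x hγ hθ hθ1 hN K
  obtain ⟨hmono, -, -, T, hT⟩ := hN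
  have hδ : 0 < (1 - θ) / 4 := by linarith
  obtain ⟨M, hM1, hM⟩ := hSLO K γ ((1 - θ) / 4) hγ hδ
  have hk := Q257.SF.SLO.k0_pos
  refine ⟨max M T, (1 + (1 - θ) / 4) ^ 2 * k0 * (1 + 1 / ((1 - θ) / 4)),
    le_trans hM1 (le_max_left _ _), by positivity, ?_⟩
  intro w hw f f' hf hf' n hn
  have hab : x n ≤ x (n + 1) := hmono (by omega)
  have hθδ : θ = 1 - 4 * ((1 - θ) / 4) := by ring
  have hMM : M ≤ max M T := le_max_left _ _
  have hMT : T ≤ max M T := le_max_right _ _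
  have hup : ∀ s s' : ℝ, |s| ≤ |s'| → up γ w s ≤ up γ w s' := by
    intro s s' h
    exact mul_le_mul (hw.2.2.1 s s' h) (Real.rpow_le_rpow (abs_nonneg s) h (by positivity))
      (Real.rpow_nonneg (abs_nonneg s) _) (hw.2.1 s')
  rcases hn with h | h
  · -- right side
    have h1 : |x n| = x n := abs_of_nonneg (by linarith)
    have h2 : |x (n + 1)| = x (n + 1) := abs_of_nonneg (by linarith)
    have hg := hT n (by rw [h1]; linarith)
    have hpow : 1 ≤ |x n| ^ γ := Real.one_le_rpow (by rw [h1]; linarith) hγ.le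
    have hb1 : x (n + 1) - x n ≤ 1 := by nlinarith
    refine core hWIR hθ hδ hθδ hw f f' hf hf' (x n) (x (n + 1)) (x n) hab hb1 hg ?_ le_rfl
      (hup _ _ (by rw [h1, h2]; exact hab))
    intro y hy
    refine hM w hw (x n) y (by rw [h1]; linarith) ?_
    rw [abs_of_nonneg (by linarith [hy.1])]
    linarith [hy.2]
  · -- left side
    have h1 : |x n| = -x n := abs_of_nonpos (by linarith)
    have h2 : |x (n + 1)| = -x (n + 1) := abs_of_nonpos (by linarith)
    have hg := hT n (by rw [h1]; linarith)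
    have hpow : 1 ≤ |x n| ^ γ := Real.one_le_rpow (by rw [h1]; linarith) hγ.le
    have hb1 : x (n + 1) - x n ≤ 1 := by nlinarith
    have hle : |x (n + 1)| ≤ |x n| := by rw [h1, h2]; linarith
    have hg' : |x (n + 1)| ^ γ * (x (n + 1) - x n) ≤ θ / 2 := by
      refine le_trans (mul_le_mul_of_nonneg_right ?_ (by linarith)) hg
      exact Real.rpow_le_rpow (abs_nonneg _) hle hγ.le
    refine core hWIR hθ hδ hθδ hw f f' hf hf' (x n) (x (n + 1)) (x (n + 1)) hab hb1 hg' ?_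
      (hup _ _ hle) le_rfl
    intro y hy
    refine hM w hw (x (n + 1)) y (by rw [h2]; linarith) ?_
    rw [abs_of_nonpos (by linarith [hy.2])]
    linarith [hy.1]

end Q257.SF.INT
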