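import Mathlib
import Pool.Agent.Q249.SF.Stm

/-!
# The Gaussian window as a Schwartz function on the line (for jobs SF-STA, SF-STB)
-/

set_option autoImplicit false

open MeasureTheory Real Set Filter Topology
open scoped FourierTransform SchwartzMap

namespace Q257.SF.Win

open Q249.SF

theorem iteratedDeriv_exp_line (a : ℝ) (n : ℕ) :
    iteratedDeriv n (fun t : ℝ => Complex.exp ((-a * t : ℝ) : ℂ)) =
      fun t : ℝ => ((-a : ℝ) : ℂ) ^ n * Complex.exp ((-a * t : ℝ) : ℂ) := by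
  induction n with
  | zero => ext t; simp
  | succ n ih =>
    rw [iteratedDeriv_succ, ih]
    ext t
    have h1 : HasDerivAt (fun t : ℝ => Complex.exp ((-a * t : ℝ) : ℂ))
        (Complex.exp ((-a * t : ℝ) : ℂ) * ((-a : ℝ) : ℂ)) t := by
      have h2 : HasDerivAt (fun t : ℝ => ((-a * t : ℝ) : ℂ)) ((-a : ℝ) : ℂ) t := by
        have := ((hasDerivAt_id t).const_mul (-a)).ofReal_comp
        simpa using this
      exact h2.cexp
    have h3 := h1.const_mul (((-a : ℝ) : ℂ) ^ n)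
    rw [h3.deriv]
    ring

theorem contDiff_exp_line (a : ℝ) :
    ContDiff ℝ (⊤ : ℕ∞) (fun t : ℝ => Complex.exp ((-a * t : ℝ) : ℂ)) := by
  have : ContDiff ℝ (⊤ : ℕ∞) (fun t : ℝ => ((-a * t : ℝ) : ℂ)) :=
    Complex.ofRealCLM.contDiff.comp (contDiff_const.mul contDiff_id)
  exact this.cexp

theorem norm_iteratedFDeriv_exp_line (a : ℝ) (n : ℕ) (t : ℝ) :
    ‖iteratedFDeriv ℝ n (fun t : ℝ => Complex.exp ((-a * t : ℝ) : ℂ)) t‖ =
      |a| ^ n * Real.exp (-a * t) := by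
  rw [norm_iteratedFDeriv_eq_norm_iteratedDeriv, iteratedDeriv_exp_line]
  simp only [norm_mul, norm_pow, Complex.norm_exp, Complex.ofReal_re]
  rw [Complex.norm_real, norm_neg, Real.norm_eq_abs]

/-- `x ↦ exp (-a x²)` -/
noncomputable def gfun (a : ℝ) (x : ℝ) : ℂ := Complex.exp ((-a * ‖x‖ ^ 2 : ℝ) : ℂ)

theorem gfun_decay {a : ℝ} (ha : 0 < a) (k n : ℕ) :
    ∃ C : ℝ, ∀ x : ℝ, ‖x‖ ^ k * ‖iteratedFDeriv ℝ n (gfun a) x‖ ≤ C := by
  obtain ⟨k', C', hC', hb⟩ := (Function.hasTemperateGrowth_norm_sq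
    (H := ℝ)).norm_iteratedFDeriv_le_uniform n
  set M : ℝ := max 1 |a| with hM
  have hM1 : 1 ≤ M := le_max_left _ _
  set m : ℕ := k + k' * n with hm
  refine ⟨n.factorial * M ^ n * (1 + C') ^ n * Real.exp ((m : ℝ) ^ 2 / (4 * a)), fun x => ?_⟩
  have hx0 : 0 ≤ ‖x‖ := norm_nonneg x
  have hx1 : 1 ≤ 1 + ‖x‖ := by linarith
  set D : ℝ := (1 + C') * (1 + ‖x‖) ^ k' with hD
  have hD1 : 1 ≤ D := by
    have : 1 ≤ (1 + ‖x‖) ^ k' := one_le_pow₀ hx1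
    nlinarith
  have key : ‖iteratedFDeriv ℝ n (gfun a) x‖ ≤
      n.factorial * (M ^ n * Real.exp (-a * ‖x‖ ^ 2)) * D ^ n := by
    have hcomp : gfun a = (fun t : ℝ => Complex.exp ((-a * t : ℝ) : ℂ)) ∘
      (fun x : ℝ => ‖x‖ ^ 2) := rfl
    rw [hcomp]
    refine norm_iteratedFDeriv_comp_le (N := (⊤ : ℕ∞)) (contDiff_exp_line a)
      (contDiff_norm_sq ℝ) (by exact_mod_cast le_top) x ?_ ?_
    · intro i hi
      rw [norm_iteratedFDeriv_exp_line]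
      gcongr
      calc |a| ^ i ≤ M ^ i := by gcongr; exact le_max_right _ _
        _ ≤ M ^ n := pow_le_pow_right₀ hM1 hi
    · intro i hi hin
      calc ‖iteratedFDeriv ℝ i (fun x : ℝ => ‖x‖ ^ 2) x‖ ≤ C' * (1 + ‖x‖) ^ k' := hb i hin x
        _ ≤ D := by
          rw [hD]
          gcongr
          linarith
        _ ≤ D ^ i := le_self_pow₀ hD1 (by omega)
  have hexp : (1 + ‖x‖) ^ m * Real.exp (-a * ‖x‖ ^ 2) ≤ Real.exp ((m : ℝ) ^ 2 / (4 * a)) := by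
    have h1 : (1 + ‖x‖) ^ m ≤ Real.exp (m * ‖x‖) := by
      rw [Real.exp_nat_mul]
      gcongr
      have := Real.add_one_le_exp ‖x‖
      linarith
    calc (1 + ‖x‖) ^ m * Real.exp (-a * ‖x‖ ^ 2)
        ≤ Real.exp (m * ‖x‖) * Real.exp (-a * ‖x‖ ^ 2) := by gcongr
      _ = Real.exp (m * ‖x‖ + -a * ‖x‖ ^ 2) := by rw [Real.exp_add]
      _ ≤ Real.exp ((m : ℝ) ^ 2 / (4 * a)) := by
        apply Real.exp_le_exp.2
        rw [le_div_iff₀ (by positivity)]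
        nlinarith [sq_nonneg (2 * a * ‖x‖ - m)]
  calc ‖x‖ ^ k * ‖iteratedFDeriv ℝ n (gfun a) x‖
      ≤ (1 + ‖x‖) ^ k * (n.factorial * (M ^ n * Real.exp (-a * ‖x‖ ^ 2)) * D ^ n) := by
        gcongr
        linarith
    _ = n.factorial * M ^ n * (1 + C') ^ n *
        ((1 + ‖x‖) ^ m * Real.exp (-a * ‖x‖ ^ 2)) := by
        rw [hD, hm, mul_pow, pow_add, pow_mul]
        ring
    _ ≤ _ := by gcongr

/-- The Gaussian as a Schwartz function. -/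
noncomputable def gauss (a : ℝ) (ha : 0 < a) : 𝓢(ℝ, ℂ) where
  toFun := gfun a
  smooth' := by
    have h1 : ContDiff ℝ (⊤ : ℕ∞) (fun x : ℝ => ‖x‖ ^ 2) := contDiff_norm_sq ℝ
    exact (contDiff_exp_line a).comp h1
  decay' k n := gfun_decay ha k n

theorem gauss_apply (a : ℝ) (ha : 0 < a) (x : ℝ) :
    gauss a ha x = (Real.exp (-a * x ^ 2) : ℂ) := by
  change gfun a x = _
  rw [gfun, Real.norm_eq_abs, sq_abs, Complex.ofReal_exp]

/-- the window `y ↦ exp (-π (y - x)²)` -/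
noncomputable def gx (x : ℝ) : 𝓢(ℝ, ℂ) :=
  SchwartzMap.compSubConstCLM ℂ x (gauss π Real.pi_pos)

theorem gx_apply (x y : ℝ) : gx x y = (Real.exp (-π * (y - x) ^ 2) : ℂ) := by
  rw [gx, SchwartzMap.compSubConstCLM_apply, gauss_apply]

/-- the windowed function -/
noncomputable def W (f : 𝓢(ℝ, ℂ)) (x : ℝ) : 𝓢(ℝ, ℂ) :=
  SchwartzMap.pairing (ContinuousLinearMap.mul ℂ ℂ) f (gx x)

theorem W_apply (f : 𝓢(ℝ, ℂ)) (x y : ℝ) :
    W f x y = f y * (Real.exp (-π * (y - x) ^ 2) : ℂ) := by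
  rw [W, SchwartzMap.pairing_apply_apply, gx_apply]
  rfl

theorem Ph_eq (f : 𝓢(ℝ, ℂ)) (x ξ : ℝ) : Ph f x ξ = ‖(𝓕 (W f x) : 𝓢(ℝ, ℂ)) ξ‖ ^ 2 := by
  have h : (fun y : ℝ => f y * (Real.exp (-π * (y - x) ^ 2) : ℂ)) = ⇑(W f x) := by
    funext y
    rw [W_apply]
  unfold Ph
  rw [h, SchwartzMap.fourier_coe]

theorem int_sq (f : 𝓢(ℝ, ℂ)) : Integrable fun x => ‖f x‖ ^ 2 := by
  have h := (f.memLp 2 volume).integrable_norm_pow (by norm_num)
  simpa using h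

end Q257.SF.Win
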