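import Mathlib
import Pool.Agent.Q249.SF.Stm
import Pool.Agent.Q257.SF.Win

/-!
# Job SF-STA: Plancherel in the frequency for fixed position (for `MP_f612df_an`)
-/

set_option autoImplicit false

open MeasureTheory Real Set Filter Topology
open scoped FourierTransform SchwartzMap

namespace Q257.SF.STA

open Q249.SF Q257.SF.Win

theorem ker_eq (x y : ℝ) : Real.exp (-π * (y - x) ^ 2) ^ 2 = Q249.SF.ker (y - x) := by
  rw [Q249.SF.ker, ← Real.exp_nat_mul]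
  congr 1
  push_cast
  ring

theorem norm_W (f : 𝓢(ℝ, ℂ)) (x y : ℝ) : ‖W f x y‖ ^ 2 = ‖f y‖ ^ 2 * Q249.SF.ker (y - x) := by
  rw [W_apply, norm_mul, mul_pow, Complex.norm_real, Real.norm_of_nonneg (Real.exp_pos _).le,
    ker_eq]

theorem fourier_dW (f : 𝓢(ℝ, ℂ)) (x ξ : ℝ) :
    ‖(𝓕 (SchwartzMap.derivCLM ℂ ℂ (W f x)) : 𝓢(ℝ, ℂ)) ξ‖ ^ 2 = 4 * π ^ 2 * (ξ ^ 2 * Ph f x ξ) := by
  have hd : (deriv (W f x) : ℝ → ℂ) = ⇑(SchwartzMap.derivCLM ℂ ℂ (W f x)) := by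
    funext y
    rw [SchwartzMap.derivCLM_apply]
  have h := Real.fourier_deriv (W f x).integrable (W f x).differentiable
    (by rw [hd]; exact (SchwartzMap.derivCLM ℂ ℂ (W f x)).integrable)
  have h2 : (𝓕 (SchwartzMap.derivCLM ℂ ℂ (W f x)) : 𝓢(ℝ, ℂ)) ξ =
      (2 * π * Complex.I * ξ) • (𝓕 (W f x) : 𝓢(ℝ, ℂ)) ξ := by
    rw [SchwartzMap.fourier_coe, SchwartzMap.fourier_coe, ← hd]
    exact congrFun h ξ
  rw [h2, norm_smul, mul_pow, Ph_eq]
  have : ‖(2 * π * Complex.I * ξ : ℂ)‖ ^ 2 = 4 * π ^ 2 * ξ ^ 2 := by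
    simp only [norm_mul, Complex.norm_I, Complex.norm_real, Complex.norm_ofNat, mul_pow,
      Real.norm_eq_abs, sq_abs]
    ring
  rw [this]
  ring

theorem deriv_W (f : 𝓢(ℝ, ℂ)) (x y : ℝ) :
    deriv f y * (Real.exp (-π * (y - x) ^ 2) : ℂ) =
      SchwartzMap.derivCLM ℂ ℂ (W f x) y + (2 * π * (y - x) : ℝ) * W f x y := by
  have h1 : HasDerivAt f (deriv f y) y := f.hasDerivAt y
  have h2 : HasDerivAt (fun y : ℝ => Real.exp (-π * (y - x) ^ 2))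
      (Real.exp (-π * (y - x) ^ 2) * (-π * (2 * (y - x)))) y := by
    have h3 : HasDerivAt (fun y : ℝ => -π * (y - x) ^ 2) (-π * (2 * (y - x))) y := by
      have := ((hasDerivAt_id y).sub_const x).pow 2
      have := this.const_mul (-π)
      simpa using this
    exact h3.exp
  have h4 := h1.mul h2.ofReal_comp
  have h5 : HasDerivAt (W f x) (deriv (W f x) y) y := (W f x).hasDerivAt y
  have h6 : HasDerivAt (W f x) (deriv f y * (Real.exp (-π * (y - x) ^ 2) : ℂ) +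
      f y * ((Real.exp (-π * (y - x) ^ 2) * (-π * (2 * (y - x))) : ℝ) : ℂ)) y := by
    refine h4.congr_of_eventuallyEq (Eventually.of_forall fun z => ?_)
    simp only [W_apply, Pi.mul_apply]
  have h7 := h5.unique h6
  rw [SchwartzMap.derivCLM_apply, h7, W_apply]
  push_cast
  ring

theorem sq_add (δ : ℝ) (hδ : 0 < δ) (u v : ℂ) :
    ‖u + v‖ ^ 2 ≤ (1 + δ) * ‖u‖ ^ 2 + (1 + 1 / δ) * ‖v‖ ^ 2 := by
  have h1 : ‖u + v‖ ^ 2 ≤ (‖u‖ + ‖v‖) ^ 2 := pow_le_pow_left₀ (norm_nonneg _) (norm_add_le u v) 2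
  refine h1.trans ?_
  have h2 : 0 ≤ (δ * ‖u‖ - ‖v‖) ^ 2 / δ := by positivity
  have h3 : (δ * ‖u‖ - ‖v‖) ^ 2 / δ = δ * ‖u‖ ^ 2 - 2 * ‖u‖ * ‖v‖ + 1 / δ * ‖v‖ ^ 2 := by
    field_simp
    ring
  nlinarith

theorem t_STA : S_STA := by
  intro f x
  have i1 : Integrable (fun ξ => Ph f x ξ) := by
    have := int_sq (𝓕 (W f x) : 𝓢(ℝ, ℂ))
    simpa only [Ph_eq] using this
  have hpi := Real.pi_pos
  have h4 : (4 * π ^ 2 : ℝ) ≠ 0 := by positivity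
  have i2 : Integrable (fun ξ => ξ ^ 2 * Ph f x ξ) := by
    have := (int_sq (𝓕 (SchwartzMap.derivCLM ℂ ℂ (W f x)) : 𝓢(ℝ, ℂ))).const_mul ((4 * π ^ 2)⁻¹)
    refine this.congr (Eventually.of_forall fun ξ => ?_)
    simp only [fourier_dW]
    rw [← mul_assoc, inv_mul_cancel₀ h4, one_mul]
  have e1 : ∫ ξ, Ph f x ξ = ∫ y, ‖f y‖ ^ 2 * Q249.SF.ker (y - x) := by
    have := SchwartzMap.integral_norm_sq_fourier (W f x)
    simp only [← Ph_eq, norm_W] at this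
    exact this
  refine ⟨i1, i2, e1, ?_⟩
  intro δ hδ
  have e2 : ∫ y, ‖SchwartzMap.derivCLM ℂ ℂ (W f x) y‖ ^ 2 =
      4 * π ^ 2 * ∫ ξ, ξ ^ 2 * Ph f x ξ := by
    rw [← SchwartzMap.integral_norm_sq_fourier]
    simp only [fourier_dW]
    rw [integral_const_mul]
  -- integrability of the two pieces
  have j1 : Integrable fun y => ‖SchwartzMap.derivCLM ℂ ℂ (W f x) y‖ ^ 2 := int_sq _
  have j2 : Integrable fun y => ‖f y‖ ^ 2 * ((y - x) ^ 2 * Q249.SF.ker (y - x)) := by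
    -- `deriv f * g - (f g)'` is a Schwartz function
    have hs : ∀ y, ‖W (SchwartzMap.derivCLM ℂ ℂ f) x y - SchwartzMap.derivCLM ℂ ℂ (W f x) y‖ ^ 2 =
        4 * π ^ 2 * (‖f y‖ ^ 2 * ((y - x) ^ 2 * Q249.SF.ker (y - x))) := by
      intro y
      rw [W_apply, SchwartzMap.derivCLM_apply, deriv_W, add_sub_cancel_left, norm_mul, mul_pow,
        norm_W, Complex.norm_real, Real.norm_eq_abs, sq_abs]
      ring
    have := (int_sq (W (SchwartzMap.derivCLM ℂ ℂ f) x -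
      SchwartzMap.derivCLM ℂ ℂ (W f x))).const_mul ((4 * π ^ 2)⁻¹)
    refine this.congr (Eventually.of_forall fun y => ?_)
    simp only [sub_apply, hs]
    rw [← mul_assoc, inv_mul_cancel₀ h4, one_mul]
  have j3 : Integrable fun y => ‖deriv f y‖ ^ 2 * Q249.SF.ker (y - x) := by
    have := int_sq (W (SchwartzMap.derivCLM ℂ ℂ f) x)
    simpa only [norm_W, SchwartzMap.derivCLM_apply] using this
  have hle : ∫ y, ‖deriv f y‖ ^ 2 * Q249.SF.ker (y - x) ≤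
      (1 + δ) * (∫ y, ‖SchwartzMap.derivCLM ℂ ℂ (W f x) y‖ ^ 2) +
      (1 + 1 / δ) * (4 * π ^ 2) * ∫ y, ‖f y‖ ^ 2 * ((y - x) ^ 2 * Q249.SF.ker (y - x)) := by
    rw [← integral_const_mul, ← integral_const_mul, ← integral_add (j1.const_mul _)
      (j2.const_mul _)]
    refine integral_mono j3 ((j1.const_mul _).add (j2.const_mul _)) fun y => ?_
    have h1 := sq_add δ hδ (SchwartzMap.derivCLM ℂ ℂ (W f x) y) ((2 * π * (y - x) : ℝ) * W f x y)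
    rw [← deriv_W] at h1
    have h2 : ‖deriv f y * (Real.exp (-π * (y - x) ^ 2) : ℂ)‖ ^ 2 =
        ‖deriv f y‖ ^ 2 * Q249.SF.ker (y - x) := by
      rw [norm_mul, mul_pow, Complex.norm_real, Real.norm_of_nonneg (Real.exp_pos _).le, ker_eq]
    have h3 : ‖((2 * π * (y - x) : ℝ) : ℂ) * W f x y‖ ^ 2 =
        4 * π ^ 2 * (‖f y‖ ^ 2 * ((y - x) ^ 2 * Q249.SF.ker (y - x))) := by
      rw [norm_mul, mul_pow, norm_W, Complex.norm_real, Real.norm_eq_abs, sq_abs]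
      ring
    rw [h2, h3] at h1
    simp only [Pi.add_apply]
    linarith
  rw [e2] at hle
  have h5 : 0 ≤ 1 / (4 * π ^ 2) := by positivity
  calc 1 / (4 * π ^ 2) * ∫ y, ‖deriv f y‖ ^ 2 * Q249.SF.ker (y - x)
      ≤ 1 / (4 * π ^ 2) * ((1 + δ) * (4 * π ^ 2 * ∫ ξ, ξ ^ 2 * Ph f x ξ) +
      (1 + 1 / δ) * (4 * π ^ 2) * ∫ y, ‖f y‖ ^ 2 * ((y - x) ^ 2 * Q249.SF.ker (y - x))) :=
        mul_le_mul_of_nonneg_left hle h5
    _ = _ := by
        field_simp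

end Q257.SF.STA
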