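import Mathlib
import Pool.Agent.Q249.SF.Stm
import Pool.Agent.Q257.SF.Win

/-!
# Job SF-STB: symmetry of the Gaussian window, joint continuity (for `MP_f612df_an`)
-/

set_option autoImplicit false

open MeasureTheory Real Set Filter Topology
open scoped FourierTransform SchwartzMap

namespace Q257.SF.STB

open Q249.SF Q257.SF.Win

/-- the modulated window -/
noncomputable def hw (x ξ : ℝ) (y : ℝ) : ℂ :=
  Complex.exp (2 * π * Complex.I * x * y) * (Real.exp (-π * (y - ξ) ^ 2) : ℂ)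

theorem norm_mod (x y : ℝ) : ‖Complex.exp (2 * π * Complex.I * x * y)‖ = 1 := by
  have : (2 * π * Complex.I * x * y : ℂ) = ((2 * π * x * y : ℝ) : ℂ) * Complex.I := by
    push_cast; ring
  rw [this, Complex.norm_exp_ofReal_mul_I]

theorem hw_int (x ξ : ℝ) : Integrable (hw x ξ) := by
  have h1 : Integrable (gx ξ) := (gx ξ).integrable
  refine h1.mono ?_ (Eventually.of_forall fun y => ?_)
  · unfold hw
    exact (by fun_prop : Continuous fun y : ℝ => Complex.exp (2 * π * Complex.I * x * y) *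
      (Real.exp (-π * (y - ξ) ^ 2) : ℂ)).aestronglyMeasurable
  · rw [gx_apply, hw, norm_mul, norm_mod, one_mul]

/-- the transform of the modulated window -/
theorem fourier_hw (x ξ s : ℝ) : 𝓕 (hw x ξ) s =
    Complex.exp (-2 * π * Complex.I * (s - x) * ξ) * (Real.exp (-π * (s - x) ^ 2) : ℂ) := by
  have e : hw x ξ = fun y : ℝ => (Complex.exp (-π * ξ ^ 2) : ℂ) •
      Complex.exp (-π * (1 : ℂ) * y ^ 2 + 2 * π * (ξ + Complex.I * x) * y) := by
    funext y
    rw [hw, smul_eq_mul, Complex.ofReal_exp, ← Complex.exp_add, ← Complex.exp_add]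
    congr 1
    push_cast
    ring
  have h0 := fourier_gaussian_pi' (b := 1) (by norm_num) (ξ + Complex.I * x)
  have h1 : 𝓕 (hw x ξ) s = (Complex.exp (-π * ξ ^ 2) : ℂ) •
      (𝓕 (fun y : ℝ => Complex.exp (-π * (1 : ℂ) * y ^ 2 + 2 * π * (ξ + Complex.I * x) * y)) s) := by
    rw [e]
    simp only [Real.fourier_real_eq]
    rw [← integral_smul]
    congr 1
    funext y
    rw [smul_comm]
  rw [h1, h0]
  simp only [Complex.one_cpow, div_one, one_mul, smul_eq_mul]
  rw [Complex.ofReal_exp, ← Complex.exp_add, ← Complex.exp_add]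
  congr 1
  push_cast
  ring_nf
  simp only [Complex.I_sq]
  have hI3 : Complex.I ^ 3 = -Complex.I := Complex.I_pow_three
  have hI4 : Complex.I ^ 4 = 1 := Complex.I_pow_four
  simp only [hI3, hI4]
  ring

theorem self_adj (f : 𝓢(ℝ, ℂ)) (g : ℝ → ℂ) (hg : Integrable g) :
    ∫ ξ, (𝓕 f : 𝓢(ℝ, ℂ)) ξ * g ξ = ∫ s, f s * 𝓕 g s := by
  have := VectorFourier.integral_fourierIntegral_smul_eq_flip (V := ℝ) (W := ℝ) (F := ℂ)
    (L := innerₗ ℝ) (μ := volume) (ν := volume) continuous_fourierChar continuous_inner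
    f.integrable hg
  simpa using! this

theorem sym (f : 𝓢(ℝ, ℂ)) (x ξ : ℝ) : Ph (𝓕 f : 𝓢(ℝ, ℂ)) ξ (-x) = Ph f x ξ := by
  have h1 : 𝓕 (fun y : ℝ => (𝓕 f : 𝓢(ℝ, ℂ)) y * (Real.exp (-π * (y - ξ) ^ 2) : ℂ)) (-x) =
      ∫ y : ℝ, (𝓕 f : 𝓢(ℝ, ℂ)) y * hw x ξ y := by
    rw [Real.fourier_real_eq_integral_exp_smul]
    congr 1
    funext y
    rw [hw, smul_eq_mul]
    have : (↑(-2 * π * y * -x) * Complex.I : ℂ) = 2 * π * Complex.I * x * y := by
      push_cast; ring
    rw [this]
    ring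
  have h2 : ∫ s, f s * 𝓕 (hw x ξ) s = Complex.exp (2 * π * Complex.I * x * ξ) *
      𝓕 (fun y : ℝ => f y * (Real.exp (-π * (y - x) ^ 2) : ℂ)) ξ := by
    rw [Real.fourier_real_eq_integral_exp_smul, ← integral_const_mul]
    congr 1
    funext s
    rw [fourier_hw, smul_eq_mul]
    have : Complex.exp (-2 * π * Complex.I * (s - x) * ξ) =
        Complex.exp (2 * π * Complex.I * x * ξ) * Complex.exp (↑(-2 * π * s * ξ) * Complex.I) := by
      rw [← Complex.exp_add]
      congr 1
      push_cast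
      ring
    rw [this]
    ring
  unfold Ph
  rw [h1, self_adj f _ (hw_int x ξ), h2, norm_mul, norm_mod, one_mul]

theorem cont (f : 𝓢(ℝ, ℂ)) : Continuous fun z : ℝ × ℝ => Ph f z.1 z.2 := by
  unfold Ph
  refine Continuous.pow (Continuous.norm ?_) 2
  simp only [Real.fourier_real_eq_integral_exp_smul]
  have hf : Continuous f := f.continuous
  refine continuous_of_dominated (bound := fun y => ‖f y‖) ?_ ?_ ?_ ?_
  · intro z
    exact (by fun_prop : Continuous fun y : ℝ => Complex.exp (↑(-2 * π * y * z.2) * Complex.I) •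
      (f y * (Real.exp (-π * (y - z.1) ^ 2) : ℂ))).aestronglyMeasurable
  · intro z
    refine Eventually.of_forall fun y => ?_
    rw [norm_smul, Complex.norm_exp_ofReal_mul_I, one_mul, norm_mul, Complex.norm_real,
      Real.norm_of_nonneg (Real.exp_pos _).le]
    have : Real.exp (-π * (y - z.1) ^ 2) ≤ 1 := by
      rw [Real.exp_le_one_iff]
      have := Real.pi_pos
      nlinarith [sq_nonneg (y - z.1), mul_nonneg this.le (sq_nonneg (y - z.1))]
    calc ‖f y‖ * Real.exp (-π * (y - z.1) ^ 2) ≤ ‖f y‖ * 1 :=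
          mul_le_mul_of_nonneg_left this (norm_nonneg _)
      _ = ‖f y‖ := mul_one _
  · exact f.integrable.norm
  · refine Eventually.of_forall fun y => ?_
    fun_prop

theorem t_STB : S_STB := fun f => ⟨fun x ξ => sym f x ξ, cont f⟩

end Q257.SF.STB
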